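import Mathlib.Data.Fintype.Prod
import Mathlib.Data.List.Rotate
import Mathlib.Logic.Relation
import Mathlib.Tactic

set_option autoImplicit false

/-!
# MP_b0ae03_co: the parity pattern for the Game of Cycles fails on a triangle-free board

The board is the hexagon `0 1 6 5 4 3` with a seventh vertex `2` inside that is joined to `1`, `5`
and `3`. It has nine edges and three quadrilateral cells, and the second player wins.
-/

namespace Pool.Agent.Results.MP_b0ae03_co.SecondWins

/-- A game board with vertex set `V` and edge set `E`, drawn in the plane. The edge `e` joins
`src e` and `tgt e`. The drawing is given by its combinatorial map: the dart `(e, true)` is the edge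
`e` directed from `src e` to `tgt e`, the dart `(e, false)` is `e` directed from `tgt e` to `src e`,
and `rot` gives for each dart the next dart in the rotation around the vertex where it starts. The
boundary of the unbounded region is `outer`, and the boundaries of the bounded regions are the
members of `cells`, each given as the list of the darts that are passed when going around it. By
Euler's formula `euler` says that the combinatorial map is one of a drawing in the plane. -/
structure Board (V E : Type) [Fintype V] [Fintype E] [DecidableEq E] where
  src : E → V
  tgt : E → V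
  loopless : ∀ e, src e ≠ tgt e
  simple : ∀ e f, (src e = src f ∧ tgt e = tgt f) ∨ (src e = tgt f ∧ tgt e = src f) → e = f
  rot : E × Bool → E × Bool
  outer : List (E × Bool)
  cells : List (List (E × Bool))
  rot_start : ∀ x, (if (rot x).2 then src (rot x).1 else tgt (rot x).1) =
    if x.2 then src x.1 else tgt x.1
  rot_cycle : ∀ x y : E × Bool, (if x.2 then src x.1 else tgt x.1) =
    (if y.2 then src y.1 else tgt y.1) → ∃ k, rot^[k] x = y
  face_next : ∀ c ∈ outer :: cells, ∀ p ∈ c.zip (c.rotate 1), p.2 = rot (p.1.1, !p.1.2)
  face_once : ∀ x, (outer :: cells).flatten.count x = 1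
  connected : ∀ v w, Relation.ReflTransGen
    (fun a b => ∃ e, (src e = a ∧ tgt e = b) ∨ (src e = b ∧ tgt e = a)) v w
  euler : Fintype.card V + (cells.length + 1) = Fintype.card E + 2

variable {V E : Type} [Fintype V] [Fintype E] [DecidableEq E]

/-- The vertex where a dart starts. -/
def Board.start (B : Board V E) (x : E × Bool) : V := if x.2 then B.src x.1 else B.tgt x.1

/-- The vertices `a` and `b` are adjacent. -/
def Board.Adj (B : Board V E) (a b : V) : Prop :=
  ∃ e, (B.src e = a ∧ B.tgt e = b) ∨ (B.src e = b ∧ B.tgt e = a)

/-- The graph of the board contains no 3-cycle. -/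
def Board.TriangleFree (B : Board V E) : Prop :=
  ∀ a b c, B.Adj a b → B.Adj b c → ¬ B.Adj a c

/-- A marking of the edges: `none` if the edge is unmarked, `some true` if it has an arrow from
`src e` to `tgt e`, and `some false` if it has an arrow from `tgt e` to `src e`. -/
abbrev Marking (E : Type) := E → Option Bool

/-- All edges at `v` are marked and point toward `v`. -/
def IsSink (B : Board V E) (m : Marking E) (v : V) : Prop :=
  ∀ x : E × Bool, B.start x = v → m x.1 = some (!x.2)

/-- All edges at `v` are marked and point away from `v`. -/
def IsSource (B : Board V E) (m : Marking E) (v : V) : Prop :=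
  ∀ x : E × Bool, B.start x = v → m x.1 = some x.2

/-- It is a legal move to mark the edge `e` with direction `d`: the edge is unmarked, and no sink or
source is created (only at the end vertices of `e` could one be created). -/
def Legal (B : Board V E) (m : Marking E) (e : E) (d : Bool) : Prop :=
  m e = none ∧ ∀ v, (v = B.src e ∨ v = B.tgt e) →
    ¬ IsSink B (Function.update m e (some d)) v ∧ ¬ IsSource B (Function.update m e (some d)) v

/-- There is a cycle cell: all boundary edges of some cell are marked and oriented consistently. -/
def HasCycleCell (B : Board V E) (m : Marking E) : Prop :=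
  ∃ c ∈ B.cells, (∀ x ∈ c, m x.1 = some x.2) ∨ (∀ x ∈ c, m x.1 = some (!x.2))

/-- The player to move has a winning strategy, where `n` is the number of unmarked edges (or more)
and there is no cycle cell yet. A player wins by creating a cycle cell; a player without a legal
move loses. -/
def MoverWins (B : Board V E) : ℕ → Marking E → Prop
  | 0, _ => False
  | n + 1, m => ∃ e d, Legal B m e d ∧ (HasCycleCell B (Function.update m e (some d)) ∨
      ¬ MoverWins B n (Function.update m e (some d)))

/-- Player 1 has a winning strategy in the Game of Cycles on `B`. -/
def FirstPlayerWins (B : Board V E) : Prop := MoverWins B (Fintype.card E) fun _ => none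

/-! ### The board -/

def srcQ (e : Fin 9) : Fin 7 := match e with
  | 0 => 0 | 1 => 0 | 2 => 1 | 3 => 1 | 4 => 2 | 5 => 2 | 6 => 3 | 7 => 4 | _ => 5

def tgtQ (e : Fin 9) : Fin 7 := match e with
  | 0 => 1 | 1 => 3 | 2 => 2 | 3 => 6 | 4 => 3 | 5 => 5 | 6 => 4 | 7 => 5 | _ => 6

def rotQ (x : Fin 9 × Bool) : Fin 9 × Bool := match x with
  | (0, true) => (1, true)
  | (0, false) => (2, true)
  | (1, true) => (0, true)
  | (1, false) => (6, true)
  | (2, true) => (3, true)
  | (2, false) => (4, true)
  | (3, true) => (0, false)
  | (3, false) => (8, false)
  | (4, true) => (5, true)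
  | (4, false) => (1, false)
  | (5, true) => (2, false)
  | (5, false) => (7, false)
  | (6, true) => (4, false)
  | (6, false) => (7, true)
  | (7, true) => (6, false)
  | (7, false) => (8, true)
  | (_, true) => (5, false)
  | (_, false) => (3, false)

def outerQ : List (Fin 9 × Bool) :=
  [(1, true), (6, true), (7, true), (8, true), (3, false), (0, false)]

def cellsQ : List (List (Fin 9 × Bool)) :=
  [[(5, false), (2, false), (3, true), (8, false)],
   [(4, false), (5, true), (7, false), (6, false)],
   [(0, true), (2, true), (4, true), (1, false)]]

lemma connQ (v : Fin 7) : Relation.ReflTransGen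
    (fun a b => ∃ e, (srcQ e = a ∧ tgtQ e = b) ∨ (srcQ e = b ∧ tgtQ e = a)) 0 v := by
  have h01 : ∃ e, (srcQ e = 0 ∧ tgtQ e = 1) ∨ (srcQ e = 1 ∧ tgtQ e = 0) := by decide
  have h03 : ∃ e, (srcQ e = 0 ∧ tgtQ e = 3) ∨ (srcQ e = 3 ∧ tgtQ e = 0) := by decide
  have h12 : ∃ e, (srcQ e = 1 ∧ tgtQ e = 2) ∨ (srcQ e = 2 ∧ tgtQ e = 1) := by decide
  have h16 : ∃ e, (srcQ e = 1 ∧ tgtQ e = 6) ∨ (srcQ e = 6 ∧ tgtQ e = 1) := by decide
  have h34 : ∃ e, (srcQ e = 3 ∧ tgtQ e = 4) ∨ (srcQ e = 4 ∧ tgtQ e = 3) := by decide
  have h65 : ∃ e, (srcQ e = 6 ∧ tgtQ e = 5) ∨ (srcQ e = 5 ∧ tgtQ e = 6) := by decide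
  have r1 := Relation.ReflTransGen.single (r := fun a b => ∃ e, (srcQ e = a ∧ tgtQ e = b) ∨
    (srcQ e = b ∧ tgtQ e = a)) h01
  have r3 := Relation.ReflTransGen.single (r := fun a b => ∃ e, (srcQ e = a ∧ tgtQ e = b) ∨
    (srcQ e = b ∧ tgtQ e = a)) h03
  have r6 := r1.tail h16
  fin_cases v
  · exact Relation.ReflTransGen.refl
  · exact r1
  · exact r1.tail h12
  · exact r3
  · exact r3.tail h34
  · exact r6.tail h65
  · exact r6

/-- The hexagon `0 1 6 5 4 3` with the vertex `2` inside joined to `1`, `5` and `3`. -/
def Q : Board (Fin 7) (Fin 9) where
  src := srcQ
  tgt := tgtQ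
  loopless := by decide
  simple := by decide +kernel
  rot := rotQ
  outer := outerQ
  cells := cellsQ
  rot_start := by decide +kernel
  rot_cycle := by
    have h : ∀ x y : Fin 9 × Bool, (if x.2 then srcQ x.1 else tgtQ x.1) =
        (if y.2 then srcQ y.1 else tgtQ y.1) → ∃ k : Fin 3, rotQ^[k.val] x = y := by
      decide +kernel
    intro x y hxy
    obtain ⟨k, hk⟩ := h x y hxy
    exact ⟨k.val, hk⟩
  face_next := by decide +kernel
  face_once := by decide +kernel
  connected := by
    intro v w
    refine Relation.ReflTransGen.trans ?_ (connQ w)
    have h := Relation.ReflTransGen.swap _ _ (connQ v)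
    refine Relation.ReflTransGen.mono ?_ _ _ h
    rintro a b ⟨e, he⟩
    exact ⟨e, he.symm⟩
  euler := by decide

lemma triangleFreeQ : Q.TriangleFree := by
  have h : ∀ a b c : Fin 7, (∃ e, (srcQ e = a ∧ tgtQ e = b) ∨ (srcQ e = b ∧ tgtQ e = a)) →
      (∃ e, (srcQ e = b ∧ tgtQ e = c) ∨ (srcQ e = c ∧ tgtQ e = b)) →
      ¬ ∃ e, (srcQ e = a ∧ tgtQ e = c) ∨ (srcQ e = c ∧ tgtQ e = a) := by
    decide +kernel
  exact h

/-! ### Computation -/

def dgt (o : Option Bool) : ℕ := match o with
  | none => 0
  | some true => 1
  | some false => 2

lemma dgt_inj : ∀ a b : Option Bool, Nat.beq (dgt a) (dgt b) = true ↔ a = b := by decide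

def upd (m : Marking (Fin 9)) (e : Fin 9) (d : Bool) : Marking (Fin 9) :=
  fun f => bif Nat.beq f.val e.val then some d else m f

lemma upd_eq (m : Marking (Fin 9)) (e : Fin 9) (d : Bool) :
    upd m e d = Function.update m e (some d) := by
  funext f
  unfold upd
  rw [Function.update_apply]
  by_cases h : f = e
  · subst h; simp
  · have : Nat.beq f.val e.val = false := by
      rw [← Bool.not_eq_true, Nat.beq_eq]
      exact fun h2 => h (Fin.ext h2)
    rw [this, if_neg h]
    rfl

/-- The darts starting at a vertex. -/
def leaving (v : Fin 7) : List (Fin 9 × Bool) := match v with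
  | 0 => [(0, true), (1, true)]
  | 1 => [(0, false), (2, true), (3, true)]
  | 2 => [(2, false), (4, true), (5, true)]
  | 3 => [(1, false), (4, false), (6, true)]
  | 4 => [(6, false), (7, true)]
  | 5 => [(5, false), (7, false), (8, true)]
  | _ => [(3, false), (8, false)]

lemma mem_leaving : ∀ v x, x ∈ leaving v ↔ (if x.2 then srcQ x.1 else tgtQ x.1) = v := by
  decide +kernel

def pat (m : Marking (Fin 9)) (l : List (Fin 9 × Bool)) : Bool :=
  l.all fun x => Nat.beq (dgt (m x.1)) (dgt (some x.2))

def pat' (m : Marking (Fin 9)) (l : List (Fin 9 × Bool)) : Bool :=
  l.all fun x => Nat.beq (dgt (m x.1)) (dgt (some (!x.2)))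

lemma pat_iff (m : Marking (Fin 9)) (l : List (Fin 9 × Bool)) :
    pat m l = true ↔ ∀ x ∈ l, m x.1 = some x.2 := by
  unfold pat
  simp only [List.all_eq_true, dgt_inj]

lemma pat'_iff (m : Marking (Fin 9)) (l : List (Fin 9 × Bool)) :
    pat' m l = true ↔ ∀ x ∈ l, m x.1 = some (!x.2) := by
  unfold pat'
  simp only [List.all_eq_true, dgt_inj]

lemma isSink_iff (m : Marking (Fin 9)) (v : Fin 7) : IsSink Q m v ↔ pat' m (leaving v) = true := by
  rw [pat'_iff]
  unfold IsSink
  simp only [mem_leaving]
  rfl

lemma isSource_iff (m : Marking (Fin 9)) (v : Fin 7) :
    IsSource Q m v ↔ pat m (leaving v) = true := by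
  rw [pat_iff]
  unfold IsSource
  simp only [mem_leaving]
  rfl

def legalB (m : Marking (Fin 9)) (e : Fin 9) (d : Bool) : Bool :=
  Nat.beq (dgt (m e)) 0 && !pat (upd m e d) (leaving (srcQ e)) &&
    !pat' (upd m e d) (leaving (srcQ e)) && !pat (upd m e d) (leaving (tgtQ e)) &&
    !pat' (upd m e d) (leaving (tgtQ e))

lemma legalB_iff (m : Marking (Fin 9)) (e : Fin 9) (d : Bool) :
    legalB m e d = true ↔ Legal Q m e d := by
  unfold legalB Legal
  rw [← upd_eq]
  simp only [isSink_iff, isSource_iff, Bool.and_eq_true, Bool.not_eq_true', Bool.not_eq_true]
  have h0 : Nat.beq (dgt (m e)) 0 = true ↔ m e = none := dgt_inj (m e) none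
  rw [h0]
  constructor
  · rintro ⟨⟨⟨⟨h, h1⟩, h2⟩, h3⟩, h4⟩
    refine ⟨h, ?_⟩
    rintro v (rfl | rfl)
    · exact ⟨h2, h1⟩
    · exact ⟨h4, h3⟩
  · rintro ⟨h, h1⟩
    obtain ⟨a1, a2⟩ := h1 _ (Or.inl rfl)
    obtain ⟨a3, a4⟩ := h1 _ (Or.inr rfl)
    exact ⟨⟨⟨⟨h, a2⟩, a1⟩, a4⟩, a3⟩

def cycB (m : Marking (Fin 9)) : Bool := cellsQ.any fun c => pat m c || pat' m c

lemma cycB_iff (m : Marking (Fin 9)) : cycB m = true ↔ HasCycleCell Q m := by
  unfold cycB HasCycleCell
  simp only [List.any_eq_true, Bool.or_eq_true, pat_iff, pat'_iff]
  rfl

/-- The positions (coded in base 3) in which the player to move loses and which occur if the second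
player follows his strategy, as a set of bits. -/
def T : ℕ := 0x10000000000000000000000000000000000000000000000000000000000000000000000000000000000000000000000000000000000000000000000000000000000000000080000000000000000400000000000000000000000000000000000000000000000000000000000000000000000000000000000000000000000000000000000000000000000000000000000000000000000000000000000000000000000000000000000000000000000000000000000000000000000000000000000000000000000000000000000000000000000000000000000000000000000000000000000c0000000000000000000000000001000000000000000001000000000000000000001000000000000000000000000000000000000000000000000000000000000000000000000000000000000000000000000000000000000000000000000000000000000000000000000000000000000000000000000000000000000000000000000000000000000001000000000000000000000000000000000000000000000000000000000000000000000000000000000000000000000000000000000000000000200800000000000000000000000000000000010140800000000000000000000000100000000000000000000000000000002100000200000000000000000000000000000000000000000000000000000000000000000000000000000100000000000000000040a0100000000000000000000014000000000000000000000000000000000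00000000000000000000000000000000000000000000000000000000000000000000000000000c000800020000000000000000000100000000000000000000000000000000000000100000000000000000000000000000000000000000000000000000009400000800800000000000020000000000000000000080000000000000021000000000000000000000000000000000000000000002800002000000000000000040000000000000000000000100000000000000000000000000000000000000000000000000000000000000000000000000000000000000000000000020000000000000000000000000000000000000001800000000000000004000100100000000000000000000000000000000000000000000000000000000000000000000000000000000000000000000000000000400000000000000000000000000000000000000000000002000000000020001000500000000000800000000000000000000000000000000000000000000000000000000000000000000000000000000000000000000000000000000000000000000000000000000000000000000000000000000000000000000000000000000000000000000000000000000000000000000000000000000000000000000000000000000000000000000000000000000000000000000100300000000000080000000000400000000402800000000000000000004000000000000000000000500000000000000000000000000000000000000000000000000000000000000000000000000000000000000000000000000000000000000000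000000000000000000000000000000000000000000000000000000000000000000000000000000000000000000000000000000000000000000000000000000000000000000000000000000000000000000000000000400000000000000000000000000000000000002000000000000000000000000000400000000000000000000000000000000000000000000000000000000008400000000000000000000000000000000000000000000000000000000000000000000000000000000000000000000400000000000000000400000000000000000000000400000000800000000000000000000000000000000001002000000000000000000000000000000000000000000000000000000001300000000000080000080000000000000002800800000000000000000000000000000000001000000000000000000000000000000000000000000000008212000000002000000000000000000000000000000000000000000000000000000000000000000000000000000000000000000000000000010000000000000000000000010000000000000000000000000000000000000000000000000000000000002000000000000000000000000000000000000000000400000000000000000000000000000000000042000000000000000000000000000400000000400000400000000000060000000000000400001180000000008400000004000000000000000000000000000000001180000000000000000000000000000000000000000000000000000000000000100000000000800000000000000000020000000000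000000000000000000000000000000000000000000000000000000000000000000000000000000000000000000000000000000000000000000000000000000000000000000000000000000000000000000000000000000000000000000000000000000000000020000000000000000000020000000000000000000000000000000020000000000000000000020000000040000000500000000000000800000000420000000000100008000020000000000100000000000000000000000000000000000000000000000000000000000000000000000000000000000000000000000000000000000000000000000000000000000000000000000000000000000000000000000000000000000000000000000000070000000000000000000000000000000000000000000000000000050000004000000000001080000000000000000010008200000000000000400000000000000080000000000000000000000000000000000000080000000000002000000000000000000000000000000000000000002001000000002000000000000000000000000000000000000000002000000000000000080000000004000010000000014000000080000000080008000000000010000000000000000000000000000000000000000000000000000020000000000000000000000000000000000000000000000000200000000000020000000500100000000000800000000400000000000000208000000004000000100000000000000000000000000000000000000000000000000008001002000000000000000000000000000000000000000000000000080000000008000000000000000100000000000000500000402000000000400008000000000400000000000040000000000000000001080000000008400000000200000000000040000004000000000001080000000000000000000208000000000000008400000000000000100000000300000000000400000080000020208001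

def code (m : Marking (Fin 9)) : ℕ :=
  dgt (m 0) + 3 * (dgt (m 1) + 3 * (dgt (m 2) + 3 * (dgt (m 3) + 3 * (dgt (m 4) +
    3 * (dgt (m 5) + 3 * (dgt (m 6) + 3 * (dgt (m 7) + 3 * dgt (m 8))))))))

def es : List (Fin 9) := [0, 1, 2, 3, 4, 5, 6, 7, 8]

def ds : List Bool := [true, false]

def okB (m : Marking (Fin 9)) : Bool :=
  es.all fun e => ds.all fun d => !legalB m e d || (!cycB (upd m e d) &&
    es.any fun f => ds.any fun b => legalB (upd m e d) f b &&
      (cycB (upd (upd m e d) f b) || Nat.testBit T (code (upd (upd m e d) f b))))

def sel9 (c0 c1 c2 c3 c4 c5 c6 c7 c8 : Option Bool) : Marking (Fin 9) := fun i => match i.val with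
  | 0 => c0 | 1 => c1 | 2 => c2 | 3 => c3 | 4 => c4 | 5 => c5 | 6 => c6 | 7 => c7 | _ => c8

def os : List (Option Bool) := [none, some true, some false]

lemma mem_os : ∀ o, o ∈ os := by decide

def chk (c0 c1 : Option Bool) : Bool :=
  os.all fun c2 => os.all fun c3 => os.all fun c4 => os.all fun c5 => os.all fun c6 =>
    os.all fun c7 => os.all fun c8 =>
      !Nat.testBit T (dgt c0 + 3 * (dgt c1 + 3 * (dgt c2 + 3 * (dgt c3 + 3 * (dgt c4 +
        3 * (dgt c5 + 3 * (dgt c6 + 3 * (dgt c7 + 3 * dgt c8)))))))) ||
        okB (sel9 c0 c1 c2 c3 c4 c5 c6 c7 c8)

lemma chk_all : ∀ c0 c1 : Option Bool, chk c0 c1 = true := by decide +kernel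

lemma sel9_eq (m : Marking (Fin 9)) :
    sel9 (m 0) (m 1) (m 2) (m 3) (m 4) (m 5) (m 6) (m 7) (m 8) = m := by
  funext i
  fin_cases i <;> rfl

lemma ok_of (m : Marking (Fin 9)) (h : Nat.testBit T (code m) = true) : okB m = true := by
  have h1 := chk_all (m 0) (m 1)
  unfold chk at h1
  simp only [List.all_eq_true] at h1
  have h2 := h1 (m 2) (mem_os _) (m 3) (mem_os _) (m 4) (mem_os _) (m 5) (mem_os _) (m 6)
    (mem_os _) (m 7) (mem_os _) (m 8) (mem_os _)
  rw [sel9_eq] at h2
  unfold code at h
  rw [h, Bool.not_true, Bool.false_or] at h2
  exact h2

lemma mem_es : ∀ e, e ∈ es := by decide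

lemma mem_ds : ∀ d, d ∈ ds := by decide

/-- The number of unmarked edges. -/
def free (m : Marking (Fin 9)) : ℕ := (Finset.univ.filter fun e => m e = none).card

lemma free_upd (m : Marking (Fin 9)) (e : Fin 9) (d : Bool) (h : m e = none) :
    free (Function.update m e (some d)) + 1 = free m := by
  unfold free
  have : (Finset.univ.filter fun f => m f = none) =
      insert e (Finset.univ.filter fun f => Function.update m e (some d) f = none) := by
    ext f
    simp only [Finset.mem_insert, Finset.mem_filter, Finset.mem_univ, true_and,
      Function.update_apply]
    by_cases hf : f = e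
    · simp [hf, h]
    · simp [hf]
  rw [this, Finset.card_insert_of_notMem]
  simp [Function.update_apply]

lemma not_moverWins (n : ℕ) : ∀ m : Marking (Fin 9), Nat.testBit T (code m) = true →
    free m ≤ n → ¬ MoverWins Q n m := by
  induction n using Nat.strong_induction_on with
  | _ n ih =>
    intro m hm hn hw
    match n, hn, hw, ih with
    | 0, _, hw, _ => exact hw
    | n + 1, hn, hw, ih =>
      obtain ⟨e, d, hl, hw⟩ := hw
      have hok := ok_of m hm
      unfold okB at hok
      rw [List.all_eq_true] at hok
      have h1 := hok e (mem_es e)
      rw [List.all_eq_true] at h1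
      have h2 := h1 d (mem_ds d)
      rw [(legalB_iff m e d).mpr hl, Bool.not_true, Bool.false_or, Bool.and_eq_true] at h2
      obtain ⟨h3, h4⟩ := h2
      rw [upd_eq] at h3 h4
      rw [List.any_eq_true] at h4
      obtain ⟨f, _, h5⟩ := h4
      rw [List.any_eq_true] at h5
      obtain ⟨b, _, h6⟩ := h5
      rw [Bool.and_eq_true, legalB_iff, Bool.or_eq_true, upd_eq] at h6
      obtain ⟨hl2, h7⟩ := h6
      have hf1 := free_upd m e d hl.1
      have hf2 := free_upd (Function.update m e (some d)) f b hl2.1
      rcases hw with hw | hw
      · rw [← cycB_iff, ← Bool.not_eq_false] at hw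
        exact hw (by simpa using h3)
      · apply hw
        obtain ⟨k, rfl⟩ : ∃ k, n = k + 1 := ⟨n - 1, by omega⟩
        refine ⟨f, b, hl2, ?_⟩
        rcases h7 with h7 | h7
        · exact Or.inl ((cycB_iff _).mp h7)
        · exact Or.inr (ih k (by omega) _ h7 (by omega))

/-- The board `Q` (a hexagon with an inner vertex joined to three pairwise nonadjacent corners) is
triangle-free and has nine edges, an odd number, but Player 1 does not have a winning strategy on
it, so that Player 2 has one. -/
theorem result : Q.TriangleFree ∧ Odd (Fintype.card (Fin 9)) ∧ ¬ FirstPlayerWins Q := by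
  refine ⟨triangleFreeQ, by decide, ?_⟩
  apply not_moverWins
  · decide +kernel
  · decide +kernel

end Pool.Agent.Results.MP_b0ae03_co.SecondWins
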